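import Pool.Agent.H8.TX.Targets
import Pool.Agent.H8.TD.Basic

/-!
# Row DHI: dehomogenization preserves irreducibility
-/

set_option autoImplicit false

open MvPolynomial
open Pool.Agent.H12.ZD (pmap)
open Pool.Agent.H18.HIT Pool.Agent.H18.HX Pool.Agent.H18.VZ
open Pool.Agent.H8.ZA (HFam Const NA)
open Pool.Agent.H8.TD (lc dg Wsp Cop dh)
open Pool.Agent.H8.TX

namespace Pool.Agent.H42.TX

section

variable {k : Type} [Field k]

/-- homogenization with degree `d` -/
noncomputable def hz (d : ℕ) (p : Po 3 k) : Po 4 k :=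
  ∑ m ∈ p.support, C (coeff m p) * X 0 ^ (d - ∑ i : Fin 3, m i) * ∏ i : Fin 3, X i.succ ^ m i

theorem sum_le {p : Po 3 k} {d : ℕ} (hp : p.totalDegree ≤ d) {m : Fin 3 →₀ ℕ}
    (hm : m ∈ p.support) : ∑ i : Fin 3, m i ≤ d := by
  have h1 := (le_totalDegree hm).trans hp
  rwa [Finsupp.sum_fintype _ _ (fun _ => rfl)] at h1

theorem hz_hom {p : Po 3 k} {d : ℕ} (hp : p.totalDegree ≤ d) : (hz d p).IsHomogeneous d := by
  apply IsHomogeneous.sum
  intro m hm
  have h1 : (∏ i : Fin 3, (X i.succ : Po 4 k) ^ m i).IsHomogeneous (∑ i : Fin 3, m i) := by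
    apply IsHomogeneous.prod
    intro i _
    have h2 := (isHomogeneous_X k i.succ).pow (m i)
    rwa [one_mul] at h2
  have h3 : ((C (coeff m p) : Po 4 k) * X 0 ^ (d - ∑ i : Fin 3, m i)).IsHomogeneous
      (d - ∑ i : Fin 3, m i) := by
    have h4 := (isHomogeneous_C (Fin 4) (coeff m p)).mul ((isHomogeneous_X k (0 : Fin 4)).pow
      (d - ∑ i : Fin 3, m i))
    rwa [one_mul, zero_add] at h4
  have h5 := h3.mul h1
  rwa [Nat.sub_add_cancel (sum_le hp hm)] at h5

theorem dh_X0 : dh (X 0 : Po 4 k) = 1 := by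
  rw [dh, aeval_X, Fin.cons_zero]

theorem dh_hz (d : ℕ) (p : Po 3 k) : dh (hz d p) = p := by
  rw [hz, map_sum]
  conv_rhs => rw [MvPolynomial.as_sum p]
  apply Finset.sum_congr rfl
  intro m _
  rw [map_mul, map_mul, map_pow, dh_X0, one_pow, mul_one, map_prod]
  have e1 : ∏ i : Fin 3, dh ((X i.succ : Po 4 k) ^ m i) = ∏ i : Fin 3, (X i : Po 3 k) ^ m i := by
    apply Finset.prod_congr rfl
    intro i _
    rw [map_pow, dh, aeval_X, Fin.cons_succ]
  rw [e1, monomial_eq, Finsupp.prod_fintype _ _ (fun _ => pow_zero _)]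
  congr 1
  rw [dh, aeval_C]
  rfl

theorem hz_zero (d : ℕ) : hz d (0 : Po 3 k) = 0 := by
  rw [hz, support_zero, Finset.sum_empty]

/-- `X 0` does not divide the homogenization -/
theorem not_dvd {p : Po 3 k} {a : ℕ} (hp : p ≠ 0) (ha : p.totalDegree = a) :
    ¬ (X 0 : Po 4 k) ∣ hz a p := by
  rintro ⟨Q, hQ⟩
  have h1 : dh Q = p := by
    have := congrArg (dh (k := k)) hQ
    rw [dh_hz, map_mul, dh_X0, one_mul] at this
    exact this.symm
  have hQ0 : Q ≠ 0 := by
    rintro rfl
    rw [map_zero] at h1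
    exact hp h1.symm
  have h2 : (hz a p).totalDegree ≤ a := (hz_hom ha.le).totalDegree_le
  rw [hQ, totalDegree_mul_of_isDomain (X_ne_zero 0) hQ0, totalDegree_X] at h2
  have h3 := Pool.Agent.H8.TD.totalDegree_dh_le Q
  rw [h1, ha] at h3
  omega

/-- forms of the same degree with the same dehomogenization -/
theorem dh_inj [Infinite k] {P Q : Po 4 k} {d : ℕ} (hP : P.IsHomogeneous d)
    (hQ : Q.IsHomogeneous d) (h : dh P = dh Q) : P = Q := by
  by_contra hne
  exact Pool.Agent.H8.TD.dh_ne (hP.sub hQ) (sub_ne_zero.mpr hne) (by rw [map_sub, h, sub_self])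

/-- the homogenization of the coefficients -/
noncomputable def hzP (a : ℕ) (g : Polynomial (Po 3 k)) : Polynomial (Po 4 k) :=
  ∑ j ∈ Finset.range (g.natDegree + 1), Polynomial.C (hz a (g.coeff j)) * Polynomial.X ^ j

theorem hzP_coeff (a : ℕ) (g : Polynomial (Po 3 k)) (j : ℕ) :
    (hzP a g).coeff j = hz a (g.coeff j) := by
  rw [hzP, Polynomial.finsetSum_coeff]
  simp only [Polynomial.coeff_C_mul_X_pow]
  rw [Finset.sum_ite_eq]
  by_cases h : j ∈ Finset.range (g.natDegree + 1)
  · rw [if_pos h]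
  · rw [if_neg h]
    have : g.natDegree < j := by
      rw [Finset.mem_range] at h; omega
    rw [Polynomial.coeff_eq_zero_of_natDegree_lt this, hz_zero]

theorem hzP_map (a : ℕ) (g : Polynomial (Po 3 k)) :
    (hzP a g).map (dh (k := k)).toRingHom = g := by
  ext1 j
  rw [Polynomial.coeff_map, hzP_coeff]
  exact dh_hz a _

/-- the maximal degree of the coefficients -/
noncomputable def mxd (g : Polynomial (Po 3 k)) : ℕ :=
  (Finset.range (g.natDegree + 1)).sup fun j => (g.coeff j).totalDegree

theorem le_mxd (g : Polynomial (Po 3 k)) (j : ℕ) : (g.coeff j).totalDegree ≤ mxd g := by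
  by_cases h : j ∈ Finset.range (g.natDegree + 1)
  · exact Finset.le_sup (f := fun j => (g.coeff j).totalDegree) h
  · have : g.natDegree < j := by
      rw [Finset.mem_range] at h; omega
    rw [Polynomial.coeff_eq_zero_of_natDegree_lt this, totalDegree_zero]
    exact Nat.zero_le _

theorem ex_mxd (g : Polynomial (Po 3 k)) (hg : g ≠ 0) :
    ∃ j, g.coeff j ≠ 0 ∧ (g.coeff j).totalDegree = mxd g := by
  obtain ⟨j, -, hj⟩ := Finset.exists_mem_eq_sup (Finset.range (g.natDegree + 1))
    ⟨0, Finset.mem_range.mpr (Nat.succ_pos _)⟩ (fun j => (g.coeff j).totalDegree)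
  by_cases h0 : g.coeff j = 0
  · refine ⟨g.natDegree, ?_, ?_⟩
    · exact Polynomial.leadingCoeff_ne_zero.mpr hg
    · have h1 : mxd g = 0 := by
        rw [mxd, hj]
        simp only [h0, totalDegree_zero]
      have h2 := le_mxd g g.natDegree
      omega
  · exact ⟨j, h0, hj.symm⟩

theorem not_dvdP (g : Polynomial (Po 3 k)) (hg : g ≠ 0) :
    ¬ Polynomial.C (X 0 : Po 4 k) ∣ hzP (mxd g) g := by
  intro h
  obtain ⟨j, hj, hj'⟩ := ex_mxd g hg
  rw [Polynomial.C_dvd_iff_dvd_coeff] at h
  have := h j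
  rw [hzP_coeff] at this
  exact not_dvd hj hj' this

end

theorem pf_DHI : T_DHI := by
  intro k _ _ D n j₀ Cf hC hj₀ hX hirr
  set Φ : Polynomial (Po 4 k) :=
    ∑ j ∈ Finset.range (n + 1), Polynomial.C (Cf j) * Polynomial.X ^ j with hΦ
  have hmap : (∑ j ∈ Finset.range (n + 1), Polynomial.C (dh (Cf j)) * Polynomial.X ^ j) =
      Φ.map (dh (k := k)).toRingHom := by
    rw [hΦ, Polynomial.map_sum]
    apply Finset.sum_congr rfl
    intro j _
    rw [Polynomial.map_mul, Polynomial.map_C, Polynomial.map_pow, Polynomial.map_X]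
    rfl
  rw [hmap]
  have hcoef : ∀ m, (Φ.coeff m).IsHomogeneous D := by
    intro m
    rw [hΦ, Polynomial.finsetSum_coeff]
    simp only [Polynomial.coeff_C_mul_X_pow]
    rw [Finset.sum_ite_eq]
    by_cases h : m ∈ Finset.range (n + 1)
    · rw [if_pos h]; exact hC m
    · rw [if_neg h]; exact isHomogeneous_zero _ _ _
  have hj0 : Φ.coeff j₀ = Cf j₀ := by
    rw [hΦ, Polynomial.finsetSum_coeff]
    simp only [Polynomial.coeff_C_mul_X_pow]
    rw [Finset.sum_ite_eq, if_pos (Finset.mem_range.mpr (by omega))]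
  have hCj : Cf j₀ ≠ 0 := by
    intro h; rw [h] at hX; exact hX (dvd_zero _)
  have hΨ0 : Φ.map (dh (k := k)).toRingHom ≠ 0 := by
    intro h
    have h1 := congrArg (fun p => Polynomial.coeff p j₀) h
    simp only [Polynomial.coeff_map, Polynomial.coeff_zero, hj0] at h1
    exact Pool.Agent.H8.TD.dh_ne (hC j₀) hCj h1
  constructor
  · -- not a unit
    intro hu
    obtain ⟨r, hr, hr'⟩ := Polynomial.isUnit_iff.mp hu
    obtain ⟨c, hc, hc'⟩ := MvPolynomial.isUnit_iff_eq_C_of_isReduced.mp hr
    have hz1 : ∀ m, 1 ≤ m → Φ.coeff m = 0 := by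
      intro m hm
      by_contra h
      apply Pool.Agent.H8.TD.dh_ne (hcoef m) h
      have h1 := congrArg (fun p => Polynomial.coeff p m) hr'
      simp only [Polynomial.coeff_map] at h1
      rw [Polynomial.coeff_C_of_ne_zero (by omega)] at h1
      exact h1.symm
    have h00 : j₀ = 0 := by
      by_contra h
      have := hz1 j₀ (by omega)
      rw [hj0] at this
      exact hCj this
    have hd0 : dh (Φ.coeff 0) = C c := by
      have h1 := congrArg (fun p => Polynomial.coeff p 0) hr'
      simp only [Polynomial.coeff_map, Polynomial.coeff_C_zero] at h1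
      rw [← hc']
      exact h1.symm
    have hhom : ((C c : Po 4 k) * X 0 ^ D).IsHomogeneous D := by
      have h4 := (isHomogeneous_C (Fin 4) c).mul ((isHomogeneous_X k (0 : Fin 4)).pow D)
      rwa [one_mul, zero_add] at h4
    have hP : Φ.coeff 0 = C c * X 0 ^ D := by
      apply dh_inj (hcoef 0) hhom
      rw [hd0, map_mul, map_pow, dh_X0, one_pow, mul_one, dh, aeval_C]
      rfl
    have hD : D = 0 := by
      by_contra h
      apply hX
      rw [← hj0, h00, hP]
      exact Dvd.dvd.mul_left (dvd_pow_self _ h) _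
    apply hirr.not_isUnit
    have hΦC : Φ = Polynomial.C (C c) := by
      ext1 m
      rcases Nat.eq_zero_or_pos m with rfl | hm
      · rw [hP, hD, pow_zero, mul_one, Polynomial.coeff_C_zero]
      · rw [hz1 m hm, Polynomial.coeff_C_of_ne_zero (by omega)]
    rw [hΦC]
    exact (hc.map (C : k →+* Po 4 k)).map (Polynomial.C : Po 4 k →+* Polynomial (Po 4 k))
  · intro g h hgh
    have hg0 : g ≠ 0 := by
      rintro rfl; rw [zero_mul] at hgh; exact hΨ0 hgh
    have hh0 : h ≠ 0 := by
      rintro rfl; rw [mul_zero] at hgh; exact hΨ0 hgh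
    set a := mxd g
    set b := mxd h
    set G := hzP a g with hG
    set H := hzP b h with hH
    have hGH : ∀ m, ((G * H).coeff m).IsHomogeneous (a + b) := by
      intro m
      rw [Polynomial.coeff_mul]
      apply IsHomogeneous.sum
      intro x _
      rw [hG, hH, hzP_coeff, hzP_coeff]
      exact (hz_hom (le_mxd g _)).mul (hz_hom (le_mxd h _))
    have hdGH : ∀ m, dh ((G * H).coeff m) = dh (Φ.coeff m) := by
      intro m
      have h1 : ((G * H).map (dh (k := k)).toRingHom).coeff m =
          (Φ.map (dh (k := k)).toRingHom).coeff m := by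
        rw [Polynomial.map_mul, hG, hH, hzP_map, hzP_map, hgh]
      rw [Polynomial.coeff_map, Polynomial.coeff_map] at h1
      exact h1
    have hXp : ∀ (e : ℕ) (P : Po 4 k) (d : ℕ), P.IsHomogeneous d →
        (X 0 ^ e * P).IsHomogeneous (e + d) ∧ dh (X 0 ^ e * P) = dh P := by
      intro e P d hP
      refine ⟨?_, ?_⟩
      · have h4 := ((isHomogeneous_X k (0 : Fin 4)).pow e).mul hP
        rwa [one_mul] at h4
      · rw [map_mul, map_pow, dh_X0, one_pow, one_mul]
    rcases lt_or_ge (a + b) D with hlt | hge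
    · exfalso
      apply hX
      obtain ⟨h1, h2⟩ := hXp (D - (a + b)) _ _ (hGH j₀)
      rw [Nat.sub_add_cancel hlt.le] at h1
      have h3 : X 0 ^ (D - (a + b)) * (G * H).coeff j₀ = Cf j₀ := by
        apply dh_inj h1 (hC j₀)
        rw [h2, hdGH, hj0]
      rw [← h3]
      exact Dvd.dvd.mul_right (dvd_pow_self _ (by omega)) _
    · have hprod : G * H = Polynomial.C (X 0 ^ (a + b - D)) * Φ := by
        ext1 m
        rw [Polynomial.coeff_C_mul]
        obtain ⟨h1, h2⟩ := hXp (a + b - D) _ _ (hcoef m)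
        rw [Nat.sub_add_cancel hge] at h1
        apply dh_inj (hGH m) h1
        rw [h2, hdGH]
      have hprime : Prime (Polynomial.C (X 0 : Po 4 k)) :=
        Polynomial.prime_C_iff.mpr (MvPolynomial.X_prime (i := (0 : Fin 4)))
      have hDe : a + b - D = 0 := by
        by_contra he
        have h1 : Polynomial.C (X 0 : Po 4 k) ∣ G * H := by
          rw [hprod]
          apply Dvd.dvd.mul_right
          rw [map_pow]
          exact dvd_pow_self _ he
        rcases hprime.dvd_or_dvd h1 with h2 | h2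
        · exact not_dvdP g hg0 h2
        · exact not_dvdP h hh0 h2
      rw [hDe, pow_zero, map_one, one_mul] at hprod
      rcases hirr.isUnit_or_isUnit hprod.symm with h1 | h1
      · left
        have := h1.map (Polynomial.mapRingHom (dh (k := k)).toRingHom)
        rw [Polynomial.coe_mapRingHom, hG, hzP_map] at this
        exact this
      · right
        have := h1.map (Polynomial.mapRingHom (dh (k := k)).toRingHom)
        rw [Polynomial.coe_mapRingHom, hH, hzP_map] at this
        exact this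

end Pool.Agent.H42.TX
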